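import Pool.Agent.Helper64.SPX.Spec

set_option autoImplicit false

open MeasureTheory Filter Topology Set
open scoped InnerProductSpace ENNReal

namespace Pool.Agent.Helper21.SPX.DNS

open Pool.Agent.Helper64.SPX

variable {ι κ : Type} [Fintype ι] [Fintype κ]

lemma bdd_ae {H : E κ → ℂ} (h : Bdd H) : ∃ (C r : ℝ), 0 ≤ C ∧ (∀ x, ‖H x‖ ≤ C) ∧
    ∀ x, x ∉ Metric.closedBall (0 : E κ) r → H x = 0 := by
  obtain ⟨-, ⟨C, hC⟩, r, hr⟩ := h
  refine ⟨C, r, (norm_nonneg _).trans (hC 0), hC, fun x hx => hr x ?_⟩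
  rw [Metric.mem_closedBall, dist_zero_right, not_le] at hx
  exact hx.le

lemma bdd_memLp {H : E κ → ℂ} (h : Bdd H) (p : ℝ≥0∞) : MemLp H p volume := by
  obtain ⟨C, r, hC0, hC, hr⟩ := bdd_ae h
  have h1 : MemLp H p (volume.restrict (Metric.closedBall (0 : E κ) r)) := by
    haveI : IsFiniteMeasure (volume.restrict (Metric.closedBall (0 : E κ) r)) :=
      ⟨by rw [Measure.restrict_apply_univ]; exact measure_closedBall_lt_top⟩
    exact MemLp.of_bound h.1.aestronglyMeasurable C (Eventually.of_forall hC)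
  have h2 : (Metric.closedBall (0 : E κ) r).indicator H = H := by
    funext x
    by_cases hx : x ∈ Metric.closedBall (0 : E κ) r
    · rw [indicator_of_mem hx]
    · rw [indicator_of_notMem hx, hr x hx]
  rw [← h2]
  exact (memLp_indicator_iff_restrict Metric.isClosed_closedBall.measurableSet).2 h1

lemma ee_norm (θ : ℝ) : ‖ee θ‖ = 1 := by
  unfold ee
  have : (2 * Real.pi * θ * Complex.I : ℂ) = ((2 * Real.pi * θ : ℝ) : ℂ) * Complex.I := by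
    push_cast; ring
  rw [this, Complex.norm_exp_ofReal_mul_I]

lemma ee_cont : Continuous ee := by
  unfold ee
  fun_prop

lemma ft_int {H : E κ → ℂ} (h : Bdd H) (z : E κ) :
    Integrable (fun x => H x * ee (-⟪z, x⟫_ℝ)) := by
  have h1 : Integrable H := memLp_one_iff_integrable.1 (bdd_memLp h 1)
  refine h1.mul_bdd (c := 1) ?_ ?_
  · exact (ee_cont.comp (by fun_prop)).aestronglyMeasurable
  · exact Eventually.of_forall fun x => (ee_norm _).le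

lemma ft_sub {F G : E κ → ℂ} (hF : Bdd F) (hG : Bdd G) (z : E κ) :
    ft (fun x => F x - G x) z = ft F z - ft G z := by
  unfold ft
  rw [← integral_sub (ft_int hF z) (ft_int hG z)]
  congr 1
  funext x
  ring

lemma bdd_sub {F G : E κ → ℂ} (hF : Bdd F) (hG : Bdd G) : Bdd (fun x => F x - G x) := by
  obtain ⟨h1, ⟨C, hC⟩, r, hr⟩ := hF
  obtain ⟨h2, ⟨D, hD⟩, s, hs⟩ := hG
  refine ⟨h1.sub h2, ⟨C + D, fun x => (norm_sub_le _ _).trans (add_le_add (hC x) (hD x))⟩,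
    max r s, fun x hx => ?_⟩
  show F x - G x = 0
  rw [hr x ((le_max_left _ _).trans hx), hs x ((le_max_right _ _).trans hx), sub_zero]

lemma supp_sub {B : Set (E κ)} {F G : E κ → ℂ} (hF : SuppIn F B) (hG : SuppIn G B) :
    SuppIn (fun x => F x - G x) B := by
  intro x hx
  show F x - G x = 0
  rw [hF x hx, hG x hx, sub_zero]

/-- the dense sequence -/
lemma dense_seq (B : Set (E κ)) : ∃ F : ℕ → E κ → ℂ, (∀ j, Bdd (F j) ∧ SuppIn (F j) B) ∧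
    ∀ F' : E κ → ℂ, Bdd F' → SuppIn F' B → ∀ ε > 0, ∃ j, ∫ x, ‖F' x - F j x‖ ^ 2 < ε := by
  let S : Set (Lp ℂ 2 (volume : Measure (E κ))) :=
    {f | ∃ (F : E κ → ℂ) (h : Bdd F), SuppIn F B ∧ f = (bdd_memLp h 2).toLp F}
  have hne : Nonempty S := by
    have h0 : Bdd (fun _ : E κ => (0 : ℂ)) :=
      ⟨measurable_const, ⟨0, fun x => by simp⟩, 0, fun x _ => rfl⟩
    exact ⟨⟨_, fun _ => 0, h0, fun x _ => rfl, rfl⟩⟩
  haveI : Fact ((2 : ℝ≥0∞) ≠ ⊤) := ⟨by norm_num⟩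
  choose F hF hS hE using fun j : ℕ => (TopologicalSpace.denseSeq S j).2
  refine ⟨F, fun j => ⟨hF j, hS j⟩, ?_⟩
  intro F' h' hs' ε hε
  have hd := TopologicalSpace.denseRange_denseSeq S
  have hδ : 0 < Real.sqrt ε := Real.sqrt_pos.2 hε
  obtain ⟨j, hj⟩ := Metric.denseRange_iff.1 hd ⟨(bdd_memLp h' 2).toLp F', F', h', hs', rfl⟩
    (Real.sqrt ε) hδ
  refine ⟨j, ?_⟩
  rw [Subtype.dist_eq, hE j, dist_eq_norm, ← MemLp.toLp_sub, Lp.norm_toLp] at hj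
  have hm : MemLp (F' - F j) 2 volume := (bdd_memLp h' 2).sub (bdd_memLp (hF j) 2)
  rw [hm.eLpNorm_eq_integral_rpow_norm (by norm_num) (by norm_num)] at hj
  have hnn : 0 ≤ ∫ x, ‖(F' - F j) x‖ ^ (2 : ℝ≥0∞).toReal :=
    integral_nonneg fun x => by positivity
  rw [ENNReal.toReal_ofReal (by positivity)] at hj
  have e1 : (∫ x, ‖(F' - F j) x‖ ^ (2 : ℝ≥0∞).toReal) = ∫ x, ‖F' x - F j x‖ ^ 2 := by
    congr 1
    funext x
    simp
  rw [e1] at hj hnn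
  have e2 : ((2 : ℝ≥0∞).toReal)⁻¹ = (1 / 2 : ℝ) := by norm_num
  rw [e2, ← Real.sqrt_eq_rpow] at hj
  exact (Real.sqrt_lt_sqrt_iff hnn).1 hj

/-- the abstract comparison -/
lemma compare {Φ : Type} (P Q : Φ → ℝ) (D : Φ → Φ → ℝ) (C : ℝ) (F : ℕ → Φ) (F' : Φ)
    (hP : ∀ f g (δ : ℝ), 0 < δ → P f ≤ (1 + δ) * P g + (1 + 1 / δ) * (C * D f g))
    (hQ : ∀ f g (δ : ℝ), 0 < δ → Q f ≤ (1 + δ) * Q g + (1 + 1 / δ) * (C * D f g))
    (hC : 0 ≤ C) (hPQ : ∀ j, P (F j) = Q (F j)) (hQ0 : 0 ≤ Q F')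
    (hd : ∀ ε > 0, ∃ j, D F' (F j) < ε ∧ D (F j) F' < ε) : P F' ≤ Q F' := by
  have step : ∀ δ : ℝ, 0 < δ → P F' ≤ (1 + δ) ^ 2 * Q F' := by
    intro δ hδ
    have hK : 0 < 1 + 1 / δ := by positivity
    refine le_of_forall_pos_le_add fun ε hε => ?_
    set K : ℝ := (2 + δ) * (1 + 1 / δ) * C + 1 with hKdef
    have hK0 : 0 < K := by positivity
    obtain ⟨j, h1, h2⟩ := hd (ε / K) (by positivity)
    have h3 := hP F' (F j) δ hδ
    have h4 := hQ (F j) F' δ hδ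
    rw [hPQ j] at h3
    have h5 : (1 + 1 / δ) * (C * D F' (F j)) ≤ (1 + 1 / δ) * (C * (ε / K)) :=
      mul_le_mul_of_nonneg_left (mul_le_mul_of_nonneg_left h1.le hC) hK.le
    have h6 : (1 + 1 / δ) * (C * D (F j) F') ≤ (1 + 1 / δ) * (C * (ε / K)) :=
      mul_le_mul_of_nonneg_left (mul_le_mul_of_nonneg_left h2.le hC) hK.le
    have h7 : (1 + δ) * Q (F j) ≤ (1 + δ) * ((1 + δ) * Q F' + (1 + 1 / δ) * (C * (ε / K))) :=
      mul_le_mul_of_nonneg_left (h4.trans (by linarith)) (by linarith)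
    have h8 : (2 + δ) * ((1 + 1 / δ) * (C * (ε / K))) ≤ ε := by
      have : (2 + δ) * ((1 + 1 / δ) * (C * (ε / K))) = (K - 1) * (ε / K) := by
        rw [hKdef]; ring
      rw [this]
      have h9 : K * (ε / K) = ε := by field_simp
      have h10 : 0 < ε / K := by positivity
      linarith
    nlinarith [h3, h5, h7, h8]
  have ht : Tendsto (fun δ : ℝ => (1 + δ) ^ 2 * Q F') (𝓝[>] 0) (𝓝 ((1 + 0) ^ 2 * Q F')) := by
    refine Tendsto.mono_left ?_ nhdsWithin_le_nhds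
    exact (Continuous.tendsto (by fun_prop) 0)
  have h1 := ge_of_tendsto ht (eventually_nhdsWithin_of_forall fun δ hδ => step δ hδ)
  simpa using h1

theorem main : S_DNS := by
  intro ι κ _ _ B _ _
  obtain ⟨F, hF, hd⟩ := dense_seq B
  refine ⟨F, hF, ?_⟩
  intro Λ C v hC hj F' hF' hs' x y
  -- the two functionals on the class of functions
  let Φ : Type := {F : E κ → ℂ // Bdd F ∧ SuppIn F B}
  let M : E ι → Φ → ℝ := fun x f =>
    ∑' a : {a : E (ι ⊕ κ) // a ∈ Λ ∧ fst a = x}, ‖ft f.1 (y - snd a.1)‖ ^ 2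
  let D : Φ → Φ → ℝ := fun f g => ∫ x, ‖f.1 x - g.1 x‖ ^ 2
  have hM : ∀ x (f g : Φ) (δ : ℝ), 0 < δ →
      M x f ≤ (1 + δ) * M x g + (1 + 1 / δ) * (|C| * D f g) := by
    intro x f g δ hδ
    obtain ⟨s1, -⟩ := hC f.1 f.2.1 f.2.2 x y
    obtain ⟨s2, -⟩ := hC g.1 g.2.1 g.2.2 x y
    obtain ⟨s3, h3⟩ := hC (fun x => f.1 x - g.1 x) (bdd_sub f.2.1 g.2.1)
      (supp_sub f.2.2 g.2.2) x y
    have h4 : ∀ a : {a : E (ι ⊕ κ) // a ∈ Λ ∧ fst a = x}, ‖ft f.1 (y - snd a.1)‖ ^ 2 ≤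
        (1 + δ) * ‖ft g.1 (y - snd a.1)‖ ^ 2 +
          (1 + 1 / δ) * ‖ft (fun x => f.1 x - g.1 x) (y - snd a.1)‖ ^ 2 := by
      intro a
      rw [ft_sub f.2.1 g.2.1]
      set α := ft f.1 (y - snd a.1)
      set β := ft g.1 (y - snd a.1)
      have h5 : ‖α‖ ≤ ‖β‖ + ‖α - β‖ := by
        have := norm_add_le β (α - β)
        rwa [add_sub_cancel] at this
      have h6 : ‖α‖ ^ 2 ≤ (‖β‖ + ‖α - β‖) ^ 2 := pow_le_pow_left₀ (norm_nonneg _) h5 2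
      have h7 : 2 * ‖β‖ * ‖α - β‖ ≤ δ * ‖β‖ ^ 2 + 1 / δ * ‖α - β‖ ^ 2 := by
        have h8 : 0 ≤ (δ * ‖β‖ - ‖α - β‖) ^ 2 / δ := by positivity
        have h9 : (δ * ‖β‖ - ‖α - β‖) ^ 2 / δ =
            δ * ‖β‖ ^ 2 + 1 / δ * ‖α - β‖ ^ 2 - 2 * ‖β‖ * ‖α - β‖ := by
          field_simp
          ring
        linarith
      nlinarith
    have h5 : M x f ≤ ∑' a : {a : E (ι ⊕ κ) // a ∈ Λ ∧ fst a = x},
        ((1 + δ) * ‖ft g.1 (y - snd a.1)‖ ^ 2 +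
          (1 + 1 / δ) * ‖ft (fun x => f.1 x - g.1 x) (y - snd a.1)‖ ^ 2) :=
      s1.tsum_le_tsum h4 ((s2.mul_left _).add (s3.mul_left _))
    rw [(s2.mul_left _).tsum_add (s3.mul_left _), tsum_mul_left, tsum_mul_left] at h5
    refine h5.trans (add_le_add le_rfl (mul_le_mul_of_nonneg_left (h3.trans ?_) (by positivity)))
    exact mul_le_mul_of_nonneg_right (le_abs_self C) (integral_nonneg fun x => by positivity)
  have hM0 : ∀ x f, 0 ≤ M x f := fun x f => tsum_nonneg fun a => by positivity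
  let Fj : ℕ → Φ := fun j => ⟨F j, hF j⟩
  have hdd : ∀ ε > 0, ∃ j, D ⟨F', hF', hs'⟩ (Fj j) < ε ∧ D (Fj j) ⟨F', hF', hs'⟩ < ε := by
    intro ε hε
    obtain ⟨j, hj⟩ := hd F' hF' hs' ε hε
    refine ⟨j, hj, ?_⟩
    have : D (Fj j) ⟨F', hF', hs'⟩ = ∫ x, ‖F' x - F j x‖ ^ 2 := by
      show (∫ x, ‖F j x - F' x‖ ^ 2) = _
      congr 1
      funext x
      rw [norm_sub_rev]
    rw [this]
    exact hj
  exact le_antisymm
    (compare (M (x + v)) (M x) D |C| Fj ⟨F', hF', hs'⟩ (hM _) (hM _) (abs_nonneg _)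
      (fun j => hj j x y) (hM0 _ _) hdd)
    (compare (M x) (M (x + v)) D |C| Fj ⟨F', hF', hs'⟩ (hM _) (hM _) (abs_nonneg _)
      (fun j => (hj j x y).symm) (hM0 _ _) hdd)

end Pool.Agent.Helper21.SPX.DNS
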