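import Pool.Agent.Helper64.SPX.Spec2

set_option autoImplicit false

open MeasureTheory Filter Topology Set
open scoped InnerProductSpace ENNReal

namespace Pool.Agent.Helper21.SPX.V2

open Pool.Agent.Helper64.SPX

variable {ι : Type} [Fintype ι]

lemma lat_zero (b : Module.Basis ι ℝ (E ι)) : (0 : E ι) ∈ lat b := ⟨0, by simp⟩

lemma lat_sub {b : Module.Basis ι ℝ (E ι)} {x y : E ι} (hx : x ∈ lat b) (hy : y ∈ lat b) :
    x - y ∈ lat b := by
  obtain ⟨c, rfl⟩ := hx
  obtain ⟨d, rfl⟩ := hy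
  refine ⟨c - d, ?_⟩
  rw [← Finset.sum_sub_distrib]
  refine Finset.sum_congr rfl fun i _ => ?_
  rw [Pi.sub_apply]
  push_cast
  rw [sub_smul]

lemma lat_neg {b : Module.Basis ι ℝ (E ι)} {x : E ι} (hx : x ∈ lat b) : -x ∈ lat b := by
  have := lat_sub (lat_zero b) hx
  rwa [zero_sub] at this

lemma lat_add {b : Module.Basis ι ℝ (E ι)} {x y : E ι} (hx : x ∈ lat b) (hy : y ∈ lat b) :
    x + y ∈ lat b := by
  have := lat_sub hx (lat_neg hy)
  rwa [sub_neg_eq_add] at this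

lemma sq_sub (x l : E ι) : ‖x - l‖ ^ 2 = ‖x‖ ^ 2 - 2 * ⟪l, x⟫_ℝ + ‖l‖ ^ 2 := by
  rw [norm_sub_sq_real, real_inner_comm]

lemma eq_iff (x l : E ι) : ‖x - l‖ = ‖x‖ ↔ ⟪l, x⟫_ℝ = ‖l‖ ^ 2 / 2 := by
  rw [← sq_eq_sq₀ (norm_nonneg _) (norm_nonneg _), sq_sub]
  constructor <;> intro h <;> linarith

lemma le_iff (x l : E ι) : ‖x‖ ≤ ‖x - l‖ ↔ ⟪l, x⟫_ℝ ≤ ‖l‖ ^ 2 / 2 := by
  rw [← sq_le_sq₀ (norm_nonneg _) (norm_nonneg _), sq_sub]
  constructor <;> intro h <;> linarith

/-- translates of points of the cell by active lattice vectors stay in the cell -/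
lemma vor_shift {b : Module.Basis ι ℝ (E ι)} {x l : E ι} (hx : x ∈ vor b) (hl : l ∈ lat b)
    (h : ‖x - l‖ = ‖x‖) : x - l ∈ vor b := by
  intro m hm
  rw [h]
  have := hx (l + m) (lat_add hl hm)
  rwa [← sub_sub] at this

section poly

variable (Q : HP ι)

lemma small {s d : E ι} (hs : s ∈ Q.body) (hd : ∀ k ∈ Q.act s, ⟪Q.u k, d⟫_ℝ ≤ 0) {η : ℝ}
    (hη : 0 < η) : ∃ δ : ℝ, 0 < δ ∧ ‖δ • d‖ < η ∧ s + δ • d ∈ Q.body ∧
      ∀ k, k ∈ Q.act (s + δ • d) ↔ (k ∈ Q.act s ∧ ⟪Q.u k, d⟫_ℝ = 0) := by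
  have h1 : ∀ᶠ δ : ℝ in 𝓝[>] 0, ∀ k, k ∉ Q.act s → ⟪Q.u k, s + δ • d⟫_ℝ < Q.h k := by
    rw [Filter.eventually_all]
    intro k
    by_cases hk : k ∈ Q.act s
    · exact Eventually.of_forall fun δ h => absurd hk h
    · have hlt : ⟪Q.u k, s + (0 : ℝ) • d⟫_ℝ < Q.h k := by
        rw [zero_smul, add_zero]
        exact lt_of_le_of_ne (hs k) hk
      have hc : Continuous fun δ : ℝ => ⟪Q.u k, s + δ • d⟫_ℝ := by fun_prop
      have := (hc.tendsto 0).eventually (gt_mem_nhds hlt)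
      exact (this.filter_mono nhdsWithin_le_nhds).mono fun δ h _ => h
  have h2 : ∀ᶠ δ : ℝ in 𝓝[>] 0, ‖δ • d‖ < η := by
    have hc : Continuous fun δ : ℝ => ‖δ • d‖ := by fun_prop
    have := (hc.tendsto 0).eventually (gt_mem_nhds (by simpa using hη))
    exact this.filter_mono nhdsWithin_le_nhds
  obtain ⟨δ, ⟨h3, h4⟩, h5⟩ := ((h1.and h2).and self_mem_nhdsWithin).exists
  have hδ : (0 : ℝ) < δ := h5
  have hin : ∀ k, ⟪Q.u k, s + δ • d⟫_ℝ = ⟪Q.u k, s⟫_ℝ + δ * ⟪Q.u k, d⟫_ℝ := fun k => by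
    rw [inner_add_right, inner_smul_right]
  refine ⟨δ, hδ, h4, ?_, ?_⟩
  · intro k
    by_cases hk : k ∈ Q.act s
    · rw [hin]
      have h6 : ⟪Q.u k, s⟫_ℝ = Q.h k := hk
      have h7 := mul_nonpos_of_nonneg_of_nonpos hδ.le (hd k hk)
      linarith
    · exact (h3 k hk).le
  · intro k
    constructor
    · intro hk'
      have h8 : ⟪Q.u k, s + δ • d⟫_ℝ = Q.h k := hk'
      by_cases hk : k ∈ Q.act s
      · refine ⟨hk, ?_⟩
        have h6 : ⟪Q.u k, s⟫_ℝ = Q.h k := hk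
        rw [hin, h6] at h8
        have : δ * ⟪Q.u k, d⟫_ℝ = 0 := by linarith
        rcases mul_eq_zero.1 this with h9 | h9
        · exact absurd h9 hδ.ne'
        · exact h9
      · exact absurd h8 (h3 k hk).ne
    · rintro ⟨hk, h0⟩
      show ⟪Q.u k, s + δ • d⟫_ℝ = Q.h k
      have h6 : ⟪Q.u k, s⟫_ℝ = Q.h k := hk
      rw [hin, h0, h6]
      ring

lemma near {v : E ι} (hv : v ∈ Q.body) : ∃ ε > 0, ∀ s, ‖s - v‖ < ε → Q.act s ⊆ Q.act v := by
  have h1 : ∀ᶠ s : E ι in 𝓝 v, ∀ k, k ∉ Q.act v → ⟪Q.u k, s⟫_ℝ < Q.h k := by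
    rw [Filter.eventually_all]
    intro k
    by_cases hk : k ∈ Q.act v
    · exact Eventually.of_forall fun δ h => absurd hk h
    · have hlt : ⟪Q.u k, v⟫_ℝ < Q.h k := lt_of_le_of_ne (hv k) hk
      have hc : Continuous fun s : E ι => ⟪Q.u k, s⟫_ℝ := by fun_prop
      exact ((hc.tendsto v).eventually (gt_mem_nhds hlt)).mono fun δ h _ => h
  obtain ⟨ε, hε, h2⟩ := Metric.eventually_nhds_iff.1 h1
  refine ⟨ε, hε, fun s hs k hk => ?_⟩
  by_contra hk'
  have := h2 (by rwa [dist_eq_norm]) k hk'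
  exact absurd hk this.ne

end poly

theorem main : S_V2 := by
  intro ι _ b Q hQ hP i
  obtain ⟨hbody, hgood, hinj, hrep, hall⟩ := hQ
  have hbv : ∀ x, x ∈ Q.body ↔ x ∈ vor b := fun x => by rw [hbody]
  have hact : ∀ k x, k ∈ Q.act x ↔ ‖x - Q.u k‖ = ‖x‖ := fun k x => by
    rw [eq_iff, ← (hrep k).2.2.1]
    rfl
  -- the face
  let F : Set (E ι) := {x | x ∈ Q.body ∧ ⟪Q.u i, x⟫_ℝ = Q.h i}
  have hbc : IsClosed Q.body := by
    have : Q.body = ⋂ k, {x | ⟪Q.u k, x⟫_ℝ ≤ Q.h k} := by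
      ext x; simp [HP.body]
    rw [this]
    exact isClosed_iInter fun k => isClosed_le (by fun_prop) continuous_const
  have hFc : IsCompact F := by
    refine Metric.isCompact_of_isClosed_isBounded ?_ (hgood.1.subset fun x hx => hx.1)
    exact hbc.inter (isClosed_eq (by fun_prop) continuous_const)
  have hFn : F.Nonempty := by
    obtain ⟨x, hx, hx2⟩ := (hrep i).2.2.2
    exact ⟨x, (hbv x).2 hx, hx2⟩
  obtain ⟨v, hv⟩ := hFc.extremePoints_nonempty hFn
  have hvF : v ∈ F := hv.1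
  have hvb : v ∈ Q.body := hvF.1
  have hvi : i ∈ Q.act v := hvF.2
  -- the point is extreme
  have hvE : v ∈ (vor b).extremePoints ℝ := by
    refine ⟨(hbv v).1 hvb, ?_⟩
    intro x hx y hy hxy
    have hx' := (hbv x).2 hx
    have hy' := (hbv y).2 hy
    obtain ⟨p, q, hp, hq, hpq, hv'⟩ := hxy
    have h1 : p * ⟪Q.u i, x⟫_ℝ + q * ⟪Q.u i, y⟫_ℝ = Q.h i := by
      have : ⟪Q.u i, v⟫_ℝ = Q.h i := hvF.2
      rw [← hv', inner_add_right, inner_smul_right, inner_smul_right] at this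
      exact this
    have h2 := hx' i
    have h3 := hy' i
    have h4 : ⟪Q.u i, x⟫_ℝ = Q.h i := by
      by_contra h5
      have h6 : ⟪Q.u i, x⟫_ℝ < Q.h i := lt_of_le_of_ne h2 h5
      have h7 := mul_lt_mul_of_pos_left h6 hp
      have h8 := mul_le_mul_of_nonneg_left h3 hq.le
      have : p * Q.h i + q * Q.h i = Q.h i := by rw [← add_mul, hpq, one_mul]
      linarith
    have h4' : ⟪Q.u i, y⟫_ℝ = Q.h i := by
      by_contra h5
      have h6 : ⟪Q.u i, y⟫_ℝ < Q.h i := lt_of_le_of_ne h3 h5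
      have h7 := mul_lt_mul_of_pos_left h6 hq
      have h8 := mul_le_mul_of_nonneg_left h2 hp.le
      have : p * Q.h i + q * Q.h i = Q.h i := by rw [← add_mul, hpq, one_mul]
      linarith
    exact hv.2 ⟨hx', h4⟩ ⟨hy', h4'⟩ ⟨p, q, hp, hq, hpq, hv'⟩
  -- pointedness
  have hpt : ∀ z : E ι, (∀ j ∈ Q.act v, ⟪Q.u j, z⟫_ℝ = 0) → z = 0 := by
    intro z hz
    by_contra hz0
    obtain ⟨δ, hδ, -, h1, -⟩ := small Q hvb (d := z) (fun k hk => (hz k hk).le) one_pos
    have hz' : ∀ j ∈ Q.act v, ⟪Q.u j, -z⟫_ℝ = 0 := fun j hj => by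
      rw [inner_neg_right, hz j hj, neg_zero]
    obtain ⟨δ', hδ', -, h2, -⟩ := small Q hvb (d := -z) (fun k hk => (hz' k hk).le) one_pos
    have h3 : v ∈ openSegment ℝ (v + δ • z) (v + δ' • (-z)) := by
      refine ⟨δ' / (δ + δ'), δ / (δ + δ'), by positivity, by positivity, by field_simp; ring, ?_⟩
      rw [smul_add, smul_add, smul_smul, smul_smul, smul_neg]
      have e1 : δ' / (δ + δ') * δ = δ / (δ + δ') * δ' := by field_simp
      rw [e1]
      have e2 : (δ' / (δ + δ')) • v + (δ / (δ + δ') * δ') • z +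
          ((δ / (δ + δ')) • v + -((δ / (δ + δ') * δ') • z)) =
          (δ' / (δ + δ') + δ / (δ + δ')) • v := by
        rw [add_smul]; abel
      rw [e2]
      have e3 : δ' / (δ + δ') + δ / (δ + δ') = 1 := by field_simp; ring
      rw [e3, one_smul]
    have h4 := hvE.2 ((hbv _).1 h1) ((hbv _).1 h2) h3
    have h5 : δ • z = 0 := by
      have : v + δ • z = v := h4
      simpa using this
    rcases smul_eq_zero.1 h5 with h6 | h6
    · exact hδ.ne' h6
    · exact hz0 h6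
  -- the number of active inequalities
  have hcard : (Q.act v).ncard = Fintype.card ι := by
    have h1 := hP v hvE
    have h2 : {l | l ∈ lat b ∧ ‖v - l‖ = ‖v‖} = insert 0 (Q.u '' Q.act v) := by
      ext l
      constructor
      · rintro ⟨hl, hl2⟩
        by_cases h0 : l = 0
        · exact Or.inl h0
        · obtain ⟨k, hk⟩ := hall l hl h0 ⟨v, (hbv v).1 hvb, hl2⟩
          refine Or.inr ⟨k, ?_, hk⟩
          rw [hact, hk]
          exact hl2
      · rintro (h0 | ⟨k, hk, rfl⟩)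
        · rw [h0]
          exact ⟨lat_zero b, by simp⟩
        · exact ⟨(hrep k).1, (hact k v).1 hk⟩
    rw [h2, Set.ncard_insert_of_notMem, Set.ncard_image_of_injective _ hinj] at h1
    · omega
    · rintro ⟨k, -, hk⟩
      exact (hrep k).2.1 hk
  -- sign patterns
  have hsurj : ∀ g : Q.act v → ℝ, ∃ d : E ι, ∀ k : Q.act v, ⟪Q.u k, d⟫_ℝ = g k := by
    let L : E ι →ₗ[ℝ] (Q.act v → ℝ) :=
      { toFun := fun z k => ⟪Q.u k, z⟫_ℝ
        map_add' := fun x y => by funext k; simp [inner_add_right]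
        map_smul' := fun r x => by funext k; simp [inner_smul_right] }
    haveI : Fintype (Q.act v) := Fintype.ofFinite _
    have hL : Function.Injective L := by
      rw [← LinearMap.ker_eq_bot, LinearMap.ker_eq_bot']
      intro z hz
      exact hpt z fun j hj => congrFun hz ⟨j, hj⟩
    have hfr : Module.finrank ℝ (E ι) = Module.finrank ℝ (Q.act v → ℝ) := by
      rw [finrank_euclideanSpace, Module.finrank_fintype_fun_eq_card, ← hcard,
        Set.ncard_eq_toFinset_card', Set.toFinset_card]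
    have hs := (LinearMap.injective_iff_surjective_of_finrank_eq_finrank hfr).1 hL
    intro g
    obtain ⟨d, hd⟩ := hs g
    exact ⟨d, fun k => congrFun hd k⟩
  -- directions
  have hdir : ∀ A : Set (Fin Q.N), ∃ d : E ι, (∀ k ∈ Q.act v, k ∈ A → ⟪Q.u k, d⟫_ℝ = 0) ∧
      ∀ k ∈ Q.act v, k ∉ A → ⟪Q.u k, d⟫_ℝ = -1 := by
    classical
    intro A
    obtain ⟨d, hd⟩ := hsurj fun k => if (k : Fin Q.N) ∈ A then 0 else -1
    refine ⟨d, fun k hk hA => ?_, fun k hk hA => ?_⟩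
    · rw [hd ⟨k, hk⟩, if_pos hA]
    · rw [hd ⟨k, hk⟩, if_neg hA]
  refine ⟨?_, ?_, v, hvb, hvi, hpt, ?_⟩
  · -- (1)
    obtain ⟨d, hd1, hd2⟩ := hdir {i}
    obtain ⟨δ, -, -, h1, h2⟩ := small Q hvb (d := d) (fun k hk => by
      by_cases hki : k = i
      · rw [hd1 k hk hki]
      · rw [hd2 k hk hki]; norm_num) one_pos
    refine ⟨_, h1, fun j => ?_⟩
    rw [h2]
    constructor
    · rintro ⟨hj, hj2⟩
      by_contra hji
      rw [hd2 j hj hji] at hj2
      norm_num at hj2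
    · rintro rfl
      exact ⟨hvi, hd1 _ hvi rfl⟩
  · -- (2)
    intro x
    have hmin : ∀ y ∈ vor b, -(‖Q.u i‖ ^ 2 / 2) ≤ ⟪Q.u i, y⟫_ℝ := by
      intro y hy
      have h1 := (le_iff y (-Q.u i)).1 (hy _ (lat_neg (hrep i).1))
      rw [inner_neg_left, norm_neg] at h1
      linarith
    have hsq : ⟪Q.u i, Q.u i⟫_ℝ = ‖Q.u i‖ ^ 2 := real_inner_self_eq_norm_sq _
    constructor
    · rintro ⟨hx, hxi⟩
      have h1 := vor_shift ((hbv x).1 hx) (hrep i).1 ((hact i x).1 hxi)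
      refine ⟨(hbv _).2 h1, fun y hy => ?_⟩
      have h2 := hmin y ((hbv y).1 hy)
      have h3 : ⟪Q.u i, x⟫_ℝ = Q.h i := hxi
      rw [inner_sub_right, h3, (hrep i).2.2.1, hsq]
      linarith
    · rintro ⟨hx, hxm⟩
      obtain ⟨x0, hx0, hx0i⟩ := (hrep i).2.2.2
      have hx0i' : ‖x0 - Q.u i‖ = ‖x0‖ := (hact i x0).1 hx0i
      have h1 := hxm _ ((hbv _).2 (vor_shift hx0 (hrep i).1 hx0i'))
      have h2 := hmin _ ((hbv _).1 hx)
      rw [inner_sub_right, inner_sub_right, hx0i, (hrep i).2.2.1, hsq] at h1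
      rw [inner_sub_right, hsq] at h2
      have h3 : ⟪Q.u i, x⟫_ℝ = ‖Q.u i‖ ^ 2 / 2 := by linarith
      have h4 : ‖x - Q.u i‖ = ‖x‖ := (eq_iff _ _).2 h3
      refine ⟨(hbv x).2 ?_, (hact i x).2 h4⟩
      intro l hl
      have h5 := (hbv _).1 hx (l - Q.u i) (lat_sub hl (hrep i).1)
      rw [h4, sub_sub_sub_cancel_right] at h5
      exact h5
  · -- (3)
    obtain ⟨ε, hε, hnear⟩ := near Q hvb
    refine ⟨ε, hε, ?_⟩
    rintro s hs hsi hsv ⟨j, hji, hj⟩ η hη
    have hsub := hnear s hsv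
    have hvj : j ∈ Q.act v := hsub hj
    obtain ⟨d, hd1, hd2⟩ := hdir {i, j}
    obtain ⟨δ, -, h0, h1, h2⟩ := small Q hs (d := d) (fun k hk => by
      by_cases hkA : k ∈ ({i, j} : Set (Fin Q.N))
      · rw [hd1 k (hsub hk) hkA]
      · rw [hd2 k (hsub hk) hkA]; norm_num) hη
    set p := s + δ • d with hp
    have hactp : Q.act p = {i, j} := by
      ext k
      rw [h2]
      constructor
      · rintro ⟨hk, hk2⟩
        by_contra hkA
        rw [hd2 k (hsub hk) hkA] at hk2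
        norm_num at hk2
      · intro hk
        have hks : k ∈ Q.act s := by
          rcases hk with rfl | hk
          · exact hsi
          · rw [Set.mem_singleton_iff.1 hk]; exact hj
        exact ⟨hks, hd1 k (hsub hks) hk⟩
    have hpi : i ∈ Q.act p := by rw [hactp]; exact Or.inl rfl
    have hpj : j ∈ Q.act p := by rw [hactp]; exact Or.inr rfl
    refine ⟨p, ?_, hpi, h1, j, hactp, ?_, ?_⟩
    · rw [hp, add_sub_cancel_left]; exact h0
    · -- linear independence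
      rw [LinearIndependent.pair_iff]
      intro a c hac
      classical
      obtain ⟨d1, hd1'⟩ := hsurj fun k => if (k : Fin Q.N) = i then 1 else 0
      obtain ⟨d3, hd3'⟩ := hsurj fun k => if (k : Fin Q.N) = j then 1 else 0
      have e1 := hd1' ⟨i, hvi⟩
      have e2 := hd1' ⟨j, hvj⟩
      have e3 := hd3' ⟨i, hvi⟩
      have e4 := hd3' ⟨j, hvj⟩
      simp only [if_true, hji, if_false, hji.symm] at e1 e2 e3 e4
      have f1 : ⟪a • Q.u i + c • Q.u j, d1⟫_ℝ = 0 := by rw [hac, inner_zero_left]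
      have f2 : ⟪a • Q.u i + c • Q.u j, d3⟫_ℝ = 0 := by rw [hac, inner_zero_left]
      rw [inner_add_left, real_inner_smul_left, real_inner_smul_left] at f1 f2
      rw [e1, e2] at f1
      rw [e3, e4] at f2
      constructor
      · linarith
      · linarith
    · -- the third tile
      have hpj' : ‖p - Q.u j‖ = ‖p‖ := (hact j p).1 hpj
      have hpi' : ‖p - Q.u i‖ = ‖p‖ := (hact i p).1 hpi
      have hpv := (hbv p).1 h1
      have hsv' : p - Q.u j ∈ vor b := vor_shift hpv (hrep j).1 hpj'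
      refine ⟨p - Q.u j, (hbv _).2 hsv', 1, 1, one_pos, one_pos, ?_⟩
      obtain ⟨k1, hk1⟩ := hall (-Q.u j) (lat_neg (hrep j).1) (neg_ne_zero.2 (hrep j).2.1)
        ⟨p - Q.u j, hsv', by rw [sub_neg_eq_add, sub_add_cancel, hpj']⟩
      have hne : Q.u i - Q.u j ≠ 0 := by
        rw [sub_ne_zero]
        exact fun h => hji (hinj h).symm
      obtain ⟨k2, hk2⟩ := hall (Q.u i - Q.u j) (lat_sub (hrep i).1 (hrep j).1) hne
        ⟨p - Q.u j, hsv', by
          rw [hpj', show p - Q.u j - (Q.u i - Q.u j) = p - Q.u i by abel, hpi']⟩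
      have ha1 : k1 ∈ Q.act (p - Q.u j) := by
        rw [hact, hk1, sub_neg_eq_add, sub_add_cancel, hpj']
      have ha2 : k2 ∈ Q.act (p - Q.u j) := by
        rw [hact, hk2, hpj', show p - Q.u j - (Q.u i - Q.u j) = p - Q.u i by abel, hpi']
      have honly : ∀ k ∈ Q.act (p - Q.u j), Q.u k = -Q.u j ∨ Q.u k = Q.u i - Q.u j := by
        intro k hk
        rw [hact, hpj', sub_sub] at hk
        by_cases h0 : Q.u j + Q.u k = 0
        · left
          exact (neg_eq_of_add_eq_zero_right h0).symm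
        · obtain ⟨m, hm⟩ := hall _ (lat_add (hrep j).1 (hrep k).1) h0 ⟨p, hpv, hk⟩
          have hmp : m ∈ Q.act p := by rw [hact, hm]; exact hk
          rw [hactp] at hmp
          rcases hmp with rfl | hmp
          · right
            rw [hm]; abel
          · rw [Set.mem_singleton_iff.1 hmp] at hm
            exfalso
            have : Q.u k = 0 := by
              have h9 : Q.u j + Q.u k = Q.u j + 0 := by rw [← hm, add_zero]
              exact add_left_cancel h9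
            exact (hrep k).2.1 this
      ext z
      rw [one_smul, one_smul]
      constructor
      · intro hz
        have z1 := hz k1 ha1
        have z2 := hz k2 ha2
        rw [hk1, inner_neg_left] at z1
        rw [hk2, inner_sub_left] at z2
        refine ⟨by linarith, ?_⟩
        rw [inner_sub_left]
        linarith
      · rintro ⟨z1, z2⟩ k hk
        rw [inner_sub_left] at z2
        rcases honly k hk with h | h
        · rw [h, inner_neg_left]; linarith
        · rw [h, inner_sub_left]; linarith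

end Pool.Agent.Helper21.SPX.V2
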